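import Pool.Agent.H18.N6F.Targets

/-!
# Row FMVX: a common zero whose polars are independent on the plane
-/

set_option autoImplicit false

open Polynomial NumberField IsDedekindDomain Matrix Pool.Agent.H32.QC Pool.Agent.H34.N6
  Pool.Agent.H18.N6F

namespace Pool.Agent.H94.N6F

section

variable {F : Type} [Field F]

theorem JJ_symm (d : F) : (JJ d : Matrix (Fin 7) (Fin 7) F).IsSymm := by
  ext i j
  rw [transpose_apply]
  unfold JJ
  by_cases h1 : (i : ℕ) + 4 = j ∨ (j : ℕ) + 4 = i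
  · rw [if_pos h1, if_pos h1.symm]
  · rw [if_neg h1, if_neg (fun h => h1 h.symm)]
    by_cases h2 : (i : ℕ) = 3 ∧ (j : ℕ) = 3
    · rw [if_pos h2, if_pos h2.symm]
    · rw [if_neg h2, if_neg (fun h => h2 h.symm)]

theorem JJ_mulVec (d : F) (x : Fin 7 → F) :
    JJ d *ᵥ x = ![x 4, x 5, x 6, d * x 3, x 0, x 1, x 2] := by
  funext i
  fin_cases i <;> simp [JJ, mulVec, dotProduct, Fin.sum_univ_succ]

theorem JJ_form (d : F) (x : Fin 7 → F) : x ⬝ᵥ (JJ d *ᵥ x) =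
    x 0 * x 4 + x 1 * x 5 + x 2 * x 6 + d * x 3 ^ 2 + (x 4 * x 0 + x 5 * x 1 + x 6 * x 2) := by
  rw [JJ_mulVec]
  simp only [dotProduct, Fin.sum_univ_succ]
  simp
  ring

/-- a vector supported on the first three coordinates -/
theorem dot_of_tail {w v : Fin 7 → F} (h3 : w 3 = 0) (h4 : w 4 = 0) (h5 : w 5 = 0)
    (h6 : w 6 = 0) : w ⬝ᵥ v = w 0 * v 0 + w 1 * v 1 + w 2 * v 2 := by
  unfold dotProduct
  rw [Fin.sum_univ_seven, h3, h4, h5, h6]
  ring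

theorem JJ_mulVec_0 (d : F) (x : Fin 7 → F) : (JJ d *ᵥ x) 0 = x 4 := by
  rw [JJ_mulVec]
  rfl

theorem JJ_mulVec_1 (d : F) (x : Fin 7 → F) : (JJ d *ᵥ x) 1 = x 5 := by
  rw [JJ_mulVec]
  rfl

theorem JJ_mulVec_2 (d : F) (x : Fin 7 → F) : (JJ d *ᵥ x) 2 = x 6 := by
  rw [JJ_mulVec]
  rfl

/-- an isotropic vector of the restriction -/
theorem ti_blk (q : Matrix (Fin 7) (Fin 7) F) (x : Fin 7 → F) (hx : x ≠ 0) (h3 : x 3 = 0)
    (h4 : x 4 = 0) (h5 : x 5 = 0) (h6 : x 6 = 0) (hq : x ⬝ᵥ (q *ᵥ x) = 0) :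
    TI (blk q) 1 := by
  refine ⟨fun _ => ![x 0, x 1, x 2], ?_, fun i j => ?_⟩
  · rw [linearIndependent_unique_iff]
    intro h0
    apply hx
    have e0 : x 0 = 0 := congrFun h0 0
    have e1 : x 1 = 0 := congrFun h0 1
    have e2 : x 2 = 0 := congrFun h0 2
    funext k
    fin_cases k <;> assumption
  · have h7 : ∀ k : Fin 7, (q *ᵥ x) k = q k 0 * x 0 + q k 1 * x 1 + q k 2 * x 2 := by
      intro k
      change ∑ l, q k l * x l = _
      rw [Fin.sum_univ_seven, h3, h4, h5, h6]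
      ring
    rw [dot_of_tail h3 h4 h5 h6, h7, h7, h7] at hq
    have h8 : ∀ k : Fin 3, (blk q *ᵥ ![x 0, x 1, x 2]) k =
        blk q k 0 * x 0 + blk q k 1 * x 1 + blk q k 2 * x 2 := by
      intro k
      change ∑ l, blk q k l * ![x 0, x 1, x 2] l = _
      rw [Fin.sum_univ_three]
      rfl
    change ![x 0, x 1, x 2] ⬝ᵥ (blk q *ᵥ ![x 0, x 1, x 2]) = 0
    unfold dotProduct
    rw [Fin.sum_univ_three, h8, h8, h8]
    exact hq

end

theorem pf_MVX (hALG : T_ALG) (hOPM : T_OPM) : T_MVX := by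
  intro F _ _ h2 q d hd hq hHS hTI hCZ
  obtain ⟨x, hx, hxf, hxq⟩ := hCZ
  -- the vector of the first polar
  have hxi : (![x 4, x 5, x 6] : Fin 3 → F) ≠ 0 := by
    intro h0
    have e4 : x 4 = 0 := congrFun h0 0
    have e5 : x 5 = 0 := congrFun h0 1
    have e6 : x 6 = 0 := congrFun h0 2
    have e3 : x 3 = 0 := by
      rw [JJ_form, e4, e5, e6] at hxf
      have h1 : d * x 3 ^ 2 = 0 := by linear_combination hxf
      exact pow_eq_zero_iff (two_ne_zero) |>.1 ((mul_eq_zero.1 h1).resolve_left hd)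
    exact hTI (ti_blk q x hx e3 e4 e5 e6 hxq)
  by_cases hlin : LinearIndependent F ![![x 4, x 5, x 6], ![(q *ᵥ x) 0, (q *ᵥ x) 1, (q *ᵥ x) 2]]
  · exact ⟨x, hxf, hxq, hlin⟩
  rw [LinearIndependent.pair_iff' hxi] at hlin
  push Not at hlin
  obtain ⟨μ, hμ⟩ := hlin
  have m0 : (q *ᵥ x) 0 = μ * (JJ d *ᵥ x) 0 := by
    rw [JJ_mulVec_0]
    exact (congrFun hμ 0).symm
  have m1 : (q *ᵥ x) 1 = μ * (JJ d *ᵥ x) 1 := by
    rw [JJ_mulVec_1]
    exact (congrFun hμ 1).symm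
  have m2 : (q *ᵥ x) 2 = μ * (JJ d *ᵥ x) 2 := by
    rw [JJ_mulVec_2]
    exact (congrFun hμ 2).symm
  obtain ⟨w, w3, w4, w5, w6, hwf, hli⟩ := hALG F h2 q d hd hq hHS hTI x hx hxf hxq μ (by
    intro i
    fin_cases i
    · exact m0
    · exact m1
    · exact m2)
  have hwq : w ⬝ᵥ (q *ᵥ x) = 0 := by
    rw [dot_of_tail w3 w4 w5 w6] at hwf ⊢
    rw [m0, m1, m2]
    linear_combination μ * hwf
  -- the unit vector
  obtain ⟨i, hi, hiq⟩ : ∃ i : Fin 7, (JJ d *ᵥ x) i ≠ 0 ∧ (i = 0 ∨ i = 1 ∨ i = 2) := by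
    by_contra hcon
    push Not at hcon
    apply hxi
    have c0 := hcon 0
    have c1 := hcon 1
    have c2 := hcon 2
    rw [JJ_mulVec_0] at c0
    rw [JJ_mulVec_1] at c1
    rw [JJ_mulVec_2] at c2
    funext k
    fin_cases k
    · change x 4 = 0
      by_contra h
      exact (c0 h).1 rfl
    · change x 5 = 0
      by_contra h
      exact (c1 h).2.1 rfl
    · change x 6 = 0
      by_contra h
      exact (c2 h).2.2 rfl
  have hmi : (q *ᵥ x) i = μ * (JJ d *ᵥ x) i := by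
    rcases hiq with rfl | rfl | rfl
    · exact m0
    · exact m1
    · exact m2
  have hsd : ∀ v : Fin 7 → F, (Pi.single i (1 : F) : Fin 7 → F) ⬝ᵥ v = v i := fun v => by
    rw [single_dotProduct, one_mul]
  obtain ⟨x', h1, h3, h4⟩ := hOPM F h2 (JJ d) q (JJ_symm d) hq x w (Pi.single i 1) μ hxf hxq hwf
    hwq (by rw [hsd]; exact hi) (by rw [hsd, hsd]; exact hmi) hli
  refine ⟨x', h1, h3, ?_⟩
  rw [LinearIndependent.pair_iff]
  intro s t hst
  rw [hsd, hsd, dot_of_tail w3 w4 w5 w6, dot_of_tail w3 w4 w5 w6] at h4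
  have s0 : s * (JJ d *ᵥ x') 0 + t * (q *ᵥ x') 0 = 0 := by
    rw [JJ_mulVec_0]
    exact congrFun hst 0
  have s1 : s * (JJ d *ᵥ x') 1 + t * (q *ᵥ x') 1 = 0 := by
    rw [JJ_mulVec_1]
    exact congrFun hst 1
  have s2 : s * (JJ d *ᵥ x') 2 + t * (q *ᵥ x') 2 = 0 := by
    rw [JJ_mulVec_2]
    exact congrFun hst 2
  have si : s * (JJ d *ᵥ x') i + t * (q *ᵥ x') i = 0 := by
    rcases hiq with rfl | rfl | rfl
    · exact s0
    · exact s1
    · exact s2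
  constructor
  · refine (mul_eq_zero.1 (?_ : s * _ = 0)).resolve_right h4
    linear_combination (w 0 * (q *ᵥ x') 0 + w 1 * (q *ᵥ x') 1 + w 2 * (q *ᵥ x') 2) * si -
      (q *ᵥ x') i * (w 0 * s0 + w 1 * s1 + w 2 * s2)
  · refine (mul_eq_zero.1 (?_ : t * _ = 0)).resolve_right h4
    linear_combination (JJ d *ᵥ x') i * (w 0 * s0 + w 1 * s1 + w 2 * s2) -
      (w 0 * (JJ d *ᵥ x') 0 + w 1 * (JJ d *ᵥ x') 1 + w 2 * (JJ d *ᵥ x') 2) * si

end Pool.Agent.H94.N6F
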