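import Pool.Agent.H18.N6F.Targets

/-!
# Row FOPM: the open mapping argument
-/

set_option autoImplicit false

open Polynomial NumberField IsDedekindDomain Matrix Pool.Agent.H32.QC Pool.Agent.H34.N6
  Pool.Agent.H18.N6F

open scoped Topology

namespace Pool.Agent.H94.N6F

section

variable {F : Type} [NontriviallyNormedField F]

/-- the functional `h ↦ a ⬝ᵥ h` -/
noncomputable def lf (a : Fin 7 → F) : (Fin 7 → F) →L[F] F :=
  ∑ i, a i • (ContinuousLinearMap.proj i : (Fin 7 → F) →L[F] F)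

theorem lf_apply (a h : Fin 7 → F) : lf a h = a ⬝ᵥ h := by
  unfold lf dotProduct
  simp [_root_.sum_apply]

theorem hs_lin (q : Matrix (Fin 7) (Fin 7) F) (w x : Fin 7 → F) :
    HasStrictFDerivAt (fun y : Fin 7 → F => w ⬝ᵥ (q *ᵥ y)) (lf (w ᵥ* q)) x := by
  have h : (fun y : Fin 7 → F => w ⬝ᵥ (q *ᵥ y)) = fun y => lf (w ᵥ* q) y := by
    funext y
    rw [lf_apply, dotProduct_mulVec]
  rw [h]
  exact (lf (w ᵥ* q)).hasStrictFDerivAt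

theorem hs_form (f : Matrix (Fin 7) (Fin 7) F) (hf : f.IsSymm) (x : Fin 7 → F) :
    HasStrictFDerivAt (fun y : Fin 7 → F => y ⬝ᵥ (f *ᵥ y)) ((2 : F) • lf (f *ᵥ x)) x := by
  have h1 : ∀ i : Fin 7, HasStrictFDerivAt (fun y : Fin 7 → F => y i)
      (ContinuousLinearMap.proj i : (Fin 7 → F) →L[F] F) x := fun i =>
    (ContinuousLinearMap.proj i : (Fin 7 → F) →L[F] F).hasStrictFDerivAt
  have h2 : ∀ i : Fin 7, HasStrictFDerivAt (fun y : Fin 7 → F => (f *ᵥ y) i) (lf (f i)) x := by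
    intro i
    have h : (fun y : Fin 7 → F => (f *ᵥ y) i) = fun y => lf (f i) y := by
      funext y
      rw [lf_apply]
      rfl
    rw [h]
    exact (lf (f i)).hasStrictFDerivAt
  have h3 : HasStrictFDerivAt (fun y : Fin 7 → F => ∑ i, y i * (f *ᵥ y) i)
      (∑ i, (x i • lf (f i) + (f *ᵥ x) i • (ContinuousLinearMap.proj i : (Fin 7 → F) →L[F] F)))
      x := HasStrictFDerivAt.fun_sum (fun i _ => (h1 i).fun_mul (h2 i))
  have h4 : (∑ i, (x i • lf (f i) + (f *ᵥ x) i •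
      (ContinuousLinearMap.proj i : (Fin 7 → F) →L[F] F))) = (2 : F) • lf (f *ᵥ x) := by
    ext1 h
    have h5 : (∑ i, (x i • lf (f i) + (f *ᵥ x) i •
        (ContinuousLinearMap.proj i : (Fin 7 → F) →L[F] F))) h =
        x ⬝ᵥ (f *ᵥ h) + (f *ᵥ x) ⬝ᵥ h := by
      rw [_root_.sum_apply]
      simp only [_root_.add_apply, _root_.smul_apply, lf_apply, smul_eq_mul,
        ContinuousLinearMap.proj_apply]
      rw [Finset.sum_add_distrib]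
      rfl
    rw [h5, _root_.smul_apply, lf_apply, smul_eq_mul, dotProduct_mulVec, ← mulVec_transpose,
      hf.eq]
    ring
  rw [← h4]
  exact h3

theorem surj3 (a b c : Fin 7 → F) (h : LinearIndependent F ![a, b, c]) (y : Fin 3 → F) :
    ∃ v : Fin 7 → F, a ⬝ᵥ v = y 0 ∧ b ⬝ᵥ v = y 1 ∧ c ⬝ᵥ v = y 2 := by
  let M : Matrix (Fin 3) (Fin 7) F := Matrix.of ![a, b, c]
  have h1 : M.rank = Fintype.card (Fin 3) := LinearIndependent.rank_matrix (M := M) h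
  have h2 : LinearMap.range M.mulVecLin = ⊤ := by
    apply Submodule.eq_top_of_finrank_eq
    rw [← Matrix.rank, h1]
    simp
  obtain ⟨v, hv⟩ := LinearMap.range_eq_top.1 h2 y
  exact ⟨v, congrFun hv 0, congrFun hv 1, congrFun hv 2⟩

end

theorem pf_OPM : T_OPM := by
  intro F _ _ h2 f q hf hq x w w' μ hxf hxq hwf hwq hw'f hw'q hlin
  let Ψ : (Fin 7 → F) → Fin 3 → F := fun y =>
    ![y ⬝ᵥ (f *ᵥ y), y ⬝ᵥ (q *ᵥ y),
      (w ⬝ᵥ (q *ᵥ y)) * (w' ⬝ᵥ (f *ᵥ y)) - (w ⬝ᵥ (f *ᵥ y)) * (w' ⬝ᵥ (q *ᵥ y))]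
  let L : Fin 3 → ((Fin 7 → F) →L[F] F) := ![(2 : F) • lf (f *ᵥ x), (2 : F) • lf (q *ᵥ x),
    ((w ⬝ᵥ (q *ᵥ x)) • lf (w' ᵥ* f) + (w' ⬝ᵥ (f *ᵥ x)) • lf (w ᵥ* q)) -
      ((w ⬝ᵥ (f *ᵥ x)) • lf (w' ᵥ* q) + (w' ⬝ᵥ (q *ᵥ x)) • lf (w ᵥ* f))]
  have hΨ : HasStrictFDerivAt Ψ (ContinuousLinearMap.pi L) x := by
    rw [hasStrictFDerivAt_pi']
    intro i
    fin_cases i
    · exact hs_form f hf x
    · exact hs_form q hq x
    · exact ((hs_lin q w x).fun_mul (hs_lin f w' x)).fun_sub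
        ((hs_lin f w x).fun_mul (hs_lin q w' x))
  have hrange : (ContinuousLinearMap.pi L).range = ⊤ := by
    rw [LinearMap.range_eq_top]
    intro y
    obtain ⟨v, hv0, hv1, hv2⟩ := surj3 _ _ _ hlin
      ![y 0 / 2, y 1 / 2, y 2 / (w' ⬝ᵥ (f *ᵥ x))]
    refine ⟨v, funext fun i => ?_⟩
    change L i v = y i
    fin_cases i
    · change ((2 : F) • lf (f *ᵥ x)) v = y 0
      rw [_root_.smul_apply, lf_apply, hv0, smul_eq_mul]
      exact mul_div_cancel₀ _ h2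
    · change ((2 : F) • lf (q *ᵥ x)) v = y 1
      rw [_root_.smul_apply, lf_apply, hv1, smul_eq_mul]
      exact mul_div_cancel₀ _ h2
    · change (((w ⬝ᵥ (q *ᵥ x)) • lf (w' ᵥ* f) + (w' ⬝ᵥ (f *ᵥ x)) • lf (w ᵥ* q)) -
        ((w ⬝ᵥ (f *ᵥ x)) • lf (w' ᵥ* q) + (w' ⬝ᵥ (q *ᵥ x)) • lf (w ᵥ* f))) v = y 2
      have h3 : ((q - μ • f) *ᵥ w) ⬝ᵥ v = (w ᵥ* q) ⬝ᵥ v - μ * ((w ᵥ* f) ⬝ᵥ v) := by
        rw [sub_mulVec, smul_mulVec, sub_dotProduct, smul_dotProduct, smul_eq_mul,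
          ← mulVec_transpose, ← mulVec_transpose, hf.eq, hq.eq]
      rw [hwq, hwf, hw'q]
      simp only [_root_.sub_apply, _root_.add_apply, _root_.smul_apply, lf_apply, smul_eq_mul,
        zero_mul, zero_add]
      have h4 : w' ⬝ᵥ (f *ᵥ x) * ((w ᵥ* q) ⬝ᵥ v) - μ * (w' ⬝ᵥ (f *ᵥ x)) * ((w ᵥ* f) ⬝ᵥ v) =
          w' ⬝ᵥ (f *ᵥ x) * (((q - μ • f) *ᵥ w) ⬝ᵥ v) := by
        rw [h3]
        ring
      rw [h4, hv2]
      exact mul_div_cancel₀ _ hw'f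
  have hΨx : Ψ x = 0 := by
    funext i
    fin_cases i
    · exact hxf
    · exact hxq
    · change (w ⬝ᵥ (q *ᵥ x)) * (w' ⬝ᵥ (f *ᵥ x)) - (w ⬝ᵥ (f *ᵥ x)) * (w' ⬝ᵥ (q *ᵥ x)) = 0
      rw [hwq, hwf]
      ring
  have hmap := hΨ.map_nhds_eq_of_surj hrange
  rw [hΨx] at hmap
  have hran : Set.range Ψ ∈ 𝓝 (0 : Fin 3 → F) := by
    rw [← hmap]
    exact Filter.range_mem_map
  have hs : Filter.Tendsto (fun s : F => (![0, 0, s] : Fin 3 → F)) (𝓝[≠] 0) (𝓝 0) := by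
    have h3 : Filter.Tendsto (fun s : F => (![0, 0, s] : Fin 3 → F)) (𝓝 0) (𝓝 0) := by
      rw [tendsto_pi_nhds]
      intro i
      fin_cases i
      · exact tendsto_const_nhds
      · exact tendsto_const_nhds
      · exact Filter.tendsto_id
    exact h3.mono_left nhdsWithin_le_nhds
  have hev := (hs.eventually hran).and self_mem_nhdsWithin
  obtain ⟨s, ⟨x', hx'⟩, hs0⟩ := hev.exists
  refine ⟨x', congrFun hx' 0, congrFun hx' 1, ?_⟩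
  have h3 : (w ⬝ᵥ (q *ᵥ x')) * (w' ⬝ᵥ (f *ᵥ x')) - (w ⬝ᵥ (f *ᵥ x')) * (w' ⬝ᵥ (q *ᵥ x')) = s :=
    congrFun hx' 2
  rw [h3]
  exact hs0

end Pool.Agent.H94.N6F
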