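import Pool.Agent.H18.N6F.Targets

/-!
# Row FOPT: isotropy of a nondegenerate ternary form is open
-/

set_option autoImplicit false

open Polynomial NumberField IsDedekindDomain Matrix Pool.Agent.H32.QC Pool.Agent.H34.N6
  Pool.Agent.H18.N6F

open scoped Topology

namespace Pool.Agent.H94.N6F

section

variable {F : Type}

theorem form_symm [Field F] (M : Matrix (Fin 3) (Fin 3) F) (hM : M.IsSymm) (v y : Fin 3 → F) :
    v ⬝ᵥ (M *ᵥ y) = y ⬝ᵥ (M *ᵥ v) := by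
  rw [dotProduct_mulVec, ← mulVec_transpose, hM.eq, dotProduct_comm]

theorem form_lin [Field F] (M : Matrix (Fin 3) (Fin 3) F) (hM : M.IsSymm) (v y : Fin 3 → F)
    (a c : F) : (a • v + c • y) ⬝ᵥ (M *ᵥ (a • v + c • y)) =
      a ^ 2 * (v ⬝ᵥ (M *ᵥ v)) + 2 * a * c * (y ⬝ᵥ (M *ᵥ v)) + c ^ 2 * (y ⬝ᵥ (M *ᵥ y)) := by
  rw [mulVec_add, mulVec_smul, mulVec_smul, add_dotProduct, dotProduct_add, dotProduct_add,
    smul_dotProduct, smul_dotProduct, smul_dotProduct, smul_dotProduct, dotProduct_smul,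
    dotProduct_smul, dotProduct_smul, dotProduct_smul, form_symm M hM v y]
  simp only [smul_eq_mul]
  ring

theorem ti_one [Field F] (M : Matrix (Fin 3) (Fin 3) F) (x : Fin 3 → F) (hx : x ≠ 0)
    (h : x ⬝ᵥ (M *ᵥ x) = 0) : TI M 1 := by
  refine ⟨fun _ => x, ?_, fun i j => h⟩
  rw [linearIndependent_unique_iff]
  exact hx

theorem cont_form [NontriviallyNormedField F] (v y : Fin 3 → F) :
    Continuous (fun N : Fin 3 → Fin 3 → F => v ⬝ᵥ ((Matrix.of N : Matrix (Fin 3) (Fin 3) F) *ᵥ y))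
    := by
  simp only [dotProduct, mulVec, Matrix.of_apply]
  fun_prop

theorem cont_det [NontriviallyNormedField F] :
    Continuous (fun N : Fin 3 → Fin 3 → F => (Matrix.of N : Matrix (Fin 3) (Fin 3) F).det) := by
  simp only [Matrix.det_fin_three, Matrix.of_apply]
  fun_prop

end

theorem pf_OPT (hSQN : T_SQN) : T_OPT := by
  intro F _ _ h2 M hM hdet hTI
  obtain ⟨b, hb, hbM⟩ := hTI
  have hv : b 0 ≠ 0 := hb.ne_zero 0
  have hvM : b 0 ⬝ᵥ (M *ᵥ b 0) = 0 := hbM 0 0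
  set v : Fin 3 → F := b 0 with hvdef
  have hMv : M *ᵥ v ≠ 0 := fun h => hv (Matrix.eq_zero_of_mulVec_eq_zero hdet h)
  obtain ⟨i, hi⟩ : ∃ i, (M *ᵥ v) i ≠ 0 := by
    by_contra hcon
    push Not at hcon
    exact hMv (funext hcon)
  set y : Fin 3 → F := Pi.single i 1 with hy
  have hyM : y ⬝ᵥ (M *ᵥ v) ≠ 0 := by
    rw [hy, single_dotProduct, one_mul]
    exact hi
  obtain ⟨ε, hε, hsq⟩ := hSQN F h2
  let κ : F := y ⬝ᵥ (M *ᵥ v)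
  have hκ : κ ^ 2 ≠ 0 := pow_ne_zero 2 hyM
  let Q : (Fin 3 → Fin 3 → F) → F := fun N =>
    ((y ⬝ᵥ ((Matrix.of N : Matrix (Fin 3) (Fin 3) F) *ᵥ v)) ^ 2 -
      (v ⬝ᵥ ((Matrix.of N : Matrix (Fin 3) (Fin 3) F) *ᵥ v)) *
        (y ⬝ᵥ ((Matrix.of N : Matrix (Fin 3) (Fin 3) F) *ᵥ y))) / κ ^ 2
  have hQ : Continuous Q :=
    (((cont_form y v).pow 2).sub ((cont_form v v).mul (cont_form y y))).div_const _
  let N₀ : Fin 3 → Fin 3 → F := fun i j => M i j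
  have hN₀ : (Matrix.of N₀ : Matrix (Fin 3) (Fin 3) F) = M := rfl
  have hQ0 : Q N₀ = 1 := by
    change ((y ⬝ᵥ (M *ᵥ v)) ^ 2 - (v ⬝ᵥ (M *ᵥ v)) * (y ⬝ᵥ (M *ᵥ y))) / κ ^ 2 = 1
    rw [hvM, zero_mul, sub_zero]
    exact div_self hκ
  have h3 : ∀ᶠ N in 𝓝 N₀, ‖Q N - 1‖ < ε := by
    have h4 := hQ.tendsto N₀
    rw [hQ0] at h4
    have h5 := h4.eventually (Metric.ball_mem_nhds (1 : F) hε)
    refine h5.mono fun N hN => ?_
    rwa [← dist_eq_norm]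
  have h4 : ∀ᶠ N in 𝓝 N₀, (Matrix.of N : Matrix (Fin 3) (Fin 3) F).det ≠ 0 := by
    refine (cont_det (F := F)).continuousAt.eventually_ne ?_
    rw [hN₀]
    exact hdet
  obtain ⟨δ, hδ, hball⟩ := Metric.eventually_nhds_iff_ball.1 (h3.and h4)
  refine ⟨δ, hδ, fun M' hM' hclose => ?_⟩
  have hmem : (fun i j => M' i j : Fin 3 → Fin 3 → F) ∈ Metric.ball N₀ δ := by
    rw [Metric.mem_ball, dist_pi_lt_iff hδ]
    intro i
    rw [dist_pi_lt_iff hδ]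
    intro j
    rw [dist_eq_norm]
    exact hclose i j
  obtain ⟨h5, h6⟩ := hball _ hmem
  refine ⟨h6, ?_⟩
  by_cases hc0 : v ⬝ᵥ (M' *ᵥ v) = 0
  · exact ti_one M' v hv hc0
  obtain ⟨s, hs⟩ := hsq _ h5
  have hs' : (y ⬝ᵥ (M' *ᵥ v)) ^ 2 - (v ⬝ᵥ (M' *ᵥ v)) * (y ⬝ᵥ (M' *ᵥ y)) = (κ * s) ^ 2 := by
    have h7 : ((y ⬝ᵥ (M' *ᵥ v)) ^ 2 - (v ⬝ᵥ (M' *ᵥ v)) * (y ⬝ᵥ (M' *ᵥ y))) / κ ^ 2 = s * s := hs
    rw [div_eq_iff hκ] at h7
    rw [h7]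
    ring
  refine ti_one M' ((κ * s - y ⬝ᵥ (M' *ᵥ v)) • v + (v ⬝ᵥ (M' *ᵥ v)) • y) ?_ ?_
  · intro h0
    have h7 := congrArg (fun z => z ⬝ᵥ (M *ᵥ v)) h0
    simp only [add_dotProduct, smul_dotProduct, smul_eq_mul, hvM, mul_zero, zero_add,
      zero_dotProduct] at h7
    rcases mul_eq_zero.1 h7 with h8 | h8
    · exact hc0 h8
    · exact hyM h8
  · rw [form_lin M' hM']
    linear_combination (-(v ⬝ᵥ (M' *ᵥ v))) * hs'

end Pool.Agent.H94.N6F
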